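import Pool.Agent.H.MP_7f09f8.A

set_option autoImplicit false
open Set Function Topology Filter

namespace Pool.Agent.Results.MP_7f09f8_gt.Lindelof
open Pool.Agent.H.MP_7f09f8
universe u v

/-- the topology of pointwise convergence on the continuous real functions -/
abbrev ptop (X : Type u) [TopologicalSpace X] : TopologicalSpace C(X, ℝ) :=
  TopologicalSpace.induced (fun f : C(X, ℝ) => (f : X → ℝ)) Pi.topologicalSpace

theorem result (X : Type u) (Y : Type v) [TopologicalSpace X] [T35Space X] [TopologicalSpace Y]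
    [T35Space Y] [LindelofSpace X] (T : C(Y, ℝ) →ₗ[ℝ] C(X, ℝ))
    (hT : @IsEmbedding _ _ (ptop Y) (ptop X) T) : LindelofSpace Y := by
  classical
  refine ⟨fun F _ _ _ => ?_⟩
  by_contra hF
  have hg : ∀ s : Set Y, s.Finite → ∃ g : C(Y, ℝ), (∀ y ∈ s, g y = 0) ∧ ∀ᶠ z in F, g z = 1 := by
    intro s hs
    induction s, hs using Set.Finite.induction_on with
    | empty => exact ⟨1, by simp⟩
    | @insert y s _ _ ih =>
      obtain ⟨g, g0, g1⟩ := ih
      obtain ⟨O, o1, o2⟩ : ∃ O ∈ 𝓝 y, ¬ ∃ᶠ z in F, z ∈ O := by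
        by_contra hc
        push Not at hc
        exact hF ⟨y, mem_univ _, clusterPt_iff_frequently.2 hc⟩
      obtain ⟨k, k1, k2, k3⟩ := CompletelyRegularSpace.completely_regular y (interior O)ᶜ
        isOpen_interior.isClosed_compl fun h => h (mem_interior_iff_mem_nhds.2 o1)
      refine ⟨g * ⟨fun z => k z, continuous_subtype_val.comp k1⟩, ?_, ?_⟩
      · rintro z (rfl | hz)
        · simp [k2]
        · simp [g0 z hz]
      · filter_upwards [g1, not_frequently.1 o2] with z h1 h2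
        simp [h1, k3 fun h => h2 (interior_subset h)]
  choose S s1 s2 using fun x : X => supp (ContinuousMap.coeFnLinearMap ℝ)
    ((ContinuousMap.evalCLM ℝ x).toLinearMap ∘ₗ T) (@Continuous.comp _ _ _ (ptop Y) (ptop X) _ _ _
      (@Continuous.comp _ _ _ (ptop X) _ _ _ _ (continuous_apply x) continuous_induced_dom)
      (@IsEmbedding.continuous _ _ _ (ptop Y) (ptop X) hT))
  choose A a1 a2 using fun y : Y => supp (ContinuousMap.coeFnLinearMap ℝ ∘ₗ T)
    (ContinuousMap.evalCLM ℝ y).toLinearMap (by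
      have e : ptop Y = .induced (ContinuousMap.coeFnLinearMap ℝ ∘ₗ T) Pi.topologicalSpace :=
        (@IsInducing.eq_induced _ _ (ptop Y) (ptop X) _
          (@IsEmbedding.toIsInducing _ _ (ptop Y) (ptop X) _ hT)).trans induced_compose
      have := @Continuous.comp _ _ _ (ptop Y) _ _ _ _ (continuous_apply y) continuous_induced_dom
      rw [e] at this
      exact this)
  replace s2 : ∀ x (f : C(Y, ℝ)), (∀ y ∈ S x, f y = 0) → T f x = 0 := s2
  replace a2 : ∀ y (f : C(Y, ℝ)), (∀ x ∈ A y, T f x = 0) → f y = 0 := a2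
  choose x hx using fun y => (a1 y).countable.exists_eq_range (nonempty_iff_ne_empty.2 fun h => by
    simpa [h] using a2 y 1)
  have : ∀ z : Y, ∃ (n : ℕ) (w : ℕ → Y), ∀ i, ∀ y ∈ S (x z i), ∃ j < n, w j = y := fun z => by
    obtain ⟨n, w, -, hw⟩ := ((a1 z).biUnion fun a _ => s1 a).fin_param
    refine ⟨n, fun j => if h : j < n then w ⟨j, h⟩ else z, fun i y hy => ?_⟩
    obtain ⟨j, rfl⟩ := hw.ge (mem_iUnion₂.2 ⟨_, hx z ▸ mem_range_self i, hy⟩)
    exact ⟨j, j.2, by simp⟩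
  choose n w hw using this
  obtain ⟨N, hN⟩ : ∃ N, ∃ᶠ z in F, n z = N := by
    by_contra hc
    simp only [not_exists, not_frequently] at hc
    obtain ⟨z, hz⟩ := (eventually_countable_forall.2 hc).exists
    exact hz _ rfl
  let bad : ℕ → Set Y → Prop := fun j P => ∀ Q ⊆ P, ∀ k : C(Y, ℝ), (∀ z ∈ Q, k z = 1) →
    (∀ z ∈ Q, k (w z j) = 0) → ¬ ∃ᶠ z in F, z ∈ Q
  have : ∀ m, ∃ (P : Set Y) (f : C(Y, ℝ)), (∃ᶠ z in F, z ∈ P) ∧ (∀ z ∈ P, n z = N ∧ f z = 1) ∧
      ∀ j < m, (∀ z ∈ P, f (w z j) = 0) ∨ bad j P := by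
    intro m
    induction m with
    | zero => exact ⟨{z | n z = N}, 1, hN, fun z hz => ⟨hz, rfl⟩, by simp⟩
    | succ m ih =>
      obtain ⟨P, f, h1, h2, h3⟩ := ih
      by_cases hb : bad m P
      · exact ⟨P, f, h1, h2, fun j hj => (Nat.lt_succ_iff.1 hj).lt_or_eq.elim (h3 j)
          fun e => Or.inr (e ▸ hb)⟩
      · simp only [bad, not_forall, not_not] at hb
        obtain ⟨Q, q1, k, q2, q3, q4⟩ := hb
        refine ⟨Q, f * k, q4, fun z hz => ⟨(h2 z (q1 hz)).1, by simp [(h2 z (q1 hz)).2, q2 z hz]⟩,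
          fun j hj => (Nat.lt_succ_iff.1 hj).lt_or_eq.elim (fun h => (h3 j h).imp
            (fun h z hz => by simp [h z (q1 hz)]) fun h R hR => h R (hR.trans q1))
          fun e => Or.inl fun z hz => by simp [e, q3 z hz]⟩
  obtain ⟨P, f, h1, h2, h3⟩ := this N
  have hb : ∀ j, bad j P → ∀ h : C(Y, ℝ), (∀ᶠ z in F, z ∈ P → h z = 1) →
      ∀ᶠ z in F, z ∈ P → h (w z j) = 1 := fun j hj h e => by
    have := eventually_countable_forall.2 fun m : ℕ => not_frequently.1 (hj
      {z ∈ P | h z = 1 ∧ 1 ≤ (m + 1) * |h (w z j) - 1|} (sep_subset _ _)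
      ⟨fun y => max 0 (1 - (m + 1) * |h y - 1|), by fun_prop⟩
      (fun z hz => by simp [hz.2.1]) fun z hz => by simpa using hz.2.2)
    filter_upwards [this, e] with z k1 k2 hz
    by_contra hn
    obtain ⟨m, hm⟩ := exists_nat_one_div_lt (abs_pos.2 (sub_ne_zero.2 hn))
    rw [div_lt_iff₀' (by positivity)] at hm
    exact k1 m ⟨hz, k2 hz, hm.le⟩
  have key : ∀ c : ℕ × ℕ, ∀ᶠ z in F, ¬ (z ∈ P ∧ 1 / ((c.2 : ℝ) + 1) ≤ |T f (x z c.1)|) := by
    intro c
    by_contra hc
    have := frequently_iff_neBot.1 (show ∃ᶠ z in F, _ from hc)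
    obtain ⟨a, -, ha⟩ := isLindelof_univ (f := map (x · c.1) (F ⊓ 𝓟 {z | z ∈ P ∧
      1 / ((c.2 : ℝ) + 1) ≤ |T f (x z c.1)|})) (by simp)
    obtain ⟨g, g0, g1⟩ := hg _ (s1 a)
    have k1 := clusterPt_iff_frequently.1 ha _ ((isOpen_lt (T (f * g)).continuous.abs
      (continuous_const (y := 1 / ((c.2 : ℝ) + 1)))).mem_nhds (by
        simpa [s2 a (f * g) fun y hy => by simp [g0 y hy]] using
          Nat.cast_add_one_pos (α := ℝ) c.2))
    have k2 : ∀ᶠ z in F, ∀ j < N, z ∈ P → (f * g - f) (w z j) = 0 :=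
      (eventually_all_finite (finite_Iio N)).2 fun j hj => (h3 j hj).elim
        (fun h => .of_forall fun z hz => by simp [h z hz]) fun h => by
          filter_upwards [hb j h f (.of_forall fun z hz => (h2 z hz).2), hb j h (f * g)
            (g1.mono fun z e hz => by simp [e, (h2 z hz).2])] with z e1 e2 hz
          rw [ContinuousMap.sub_apply, e1 hz, e2 hz, sub_self]
    obtain ⟨z, z1, z2, z3⟩ := ((frequently_map.1 k1).and_eventually ((k2.filter_mono
      inf_le_left).and (mem_inf_of_right (mem_principal_self _)))).exists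
    have := s2 (x z c.1) (f * g - f) fun y hy => by
      obtain ⟨j, hj, rfl⟩ := hw z _ y hy
      exact z2 j ((h2 z z3.1).1 ▸ hj) z3.1
    rw [map_sub, ContinuousMap.sub_apply, sub_eq_zero] at this
    exact z3.2.not_gt (this ▸ z1)
  obtain ⟨z, z1, z2⟩ := (h1.and_eventually (eventually_countable_forall.2 key)).exists
  refine one_ne_zero ((h2 z z1).2.symm.trans (a2 z f fun a ha => ?_))
  obtain ⟨i, rfl⟩ := hx z ▸ ha
  by_contra hn
  obtain ⟨m, hm⟩ := exists_nat_one_div_lt (abs_pos.2 hn)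
  exact z2 (i, m) ⟨z1, hm.le⟩

end Pool.Agent.Results.MP_7f09f8_gt.Lindelof
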